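import Pool.Agent.helper96.PP2.SpecB

namespace Pool.Agent.PP2

open Topology Matrix

theorem APX_nhds_fun {R : Type} [CommRing R] [TopologicalSpace R]
    (W : Set (Fin 2 → Fin 2 → R)) (hW : W ∈ 𝓝 (0 : Fin 2 → Fin 2 → R)) :
    ∃ V ∈ 𝓝 (0 : R), ∀ X : Fin 2 → Fin 2 → R, (∀ i j, X i j ∈ V) → X ∈ W := by
  rw [nhds_pi, Filter.mem_pi] at hW
  obtain ⟨I, -, t, ht, hsub⟩ := hW
  have h2 : ∀ i : Fin 2, ∃ V ∈ 𝓝 (0 : R), ∀ x : Fin 2 → R, (∀ j, x j ∈ V) → x ∈ t i := by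
    intro i
    have h := ht i
    rw [Pi.zero_apply, nhds_pi, Filter.mem_pi] at h
    obtain ⟨I', -, t', ht', hsub'⟩ := h
    refine ⟨t' 0 ∩ t' 1, Filter.inter_mem (ht' 0) (ht' 1), fun x hx => hsub' ?_⟩
    intro j _
    fin_cases j
    · exact (hx 0).1
    · exact (hx 1).2
  obtain ⟨V0, hV0, h0'⟩ := h2 0
  obtain ⟨V1, hV1, h1'⟩ := h2 1
  refine ⟨V0 ∩ V1, Filter.inter_mem hV0 hV1, fun X hX => hsub ?_⟩
  intro i _
  fin_cases i
  · exact h0' _ (fun j => (hX 0 j).1)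
  · exact h1' _ (fun j => (hX 1 j).2)

theorem APX_nhds_mat {R : Type} [CommRing R] [TopologicalSpace R] [IsTopologicalRing R]
    (W : Set (M2 R)) (hW : W ∈ 𝓝 (1 : M2 R)) :
    ∃ V ∈ 𝓝 (0 : R), ∀ X : M2 R, (∀ i j, (X - 1) i j ∈ V) → X ∈ W := by
  have hc : Continuous (fun X : M2 R => 1 + X) := continuous_const.add continuous_id
  have h0 : (fun X : M2 R => 1 + X) ⁻¹' W ∈ 𝓝 (0 : M2 R) := by
    apply hc.continuousAt.preimage_mem_nhds
    simpa using hW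
  obtain ⟨V, hV, h⟩ := APX_nhds_fun _ h0
  refine ⟨V, hV, fun X hX => ?_⟩
  have h4 : (1 : M2 R) + (X - 1 : M2 R) ∈ W := h (X - 1 : M2 R) hX
  rwa [add_sub_cancel] at h4

/-- Neighbourhoods of one in the general linear group. -/
theorem APX_nhds {R : Type} [CommRing R] [TopologicalSpace R] [IsTopologicalRing R]
    (hb : ∀ U ∈ 𝓝 (0 : R), ∃ I : Ideal R, IsOpen (I : Set R) ∧ (I : Set R) ⊆ U)
    (U : Set (GL (Fin 2) R)) (hU : U ∈ 𝓝 (1 : GL (Fin 2) R)) :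
    ∃ I : Ideal R, IsOpen (I : Set R) ∧ ∀ u : GL (Fin 2) R,
      (∀ i j, ((u : M2 R) - 1) i j ∈ I) → (∀ i j, (((u⁻¹ : GL (Fin 2) R) : M2 R) - 1) i j ∈ I) →
      u ∈ U := by
  rw [Units.isInducing_embedProduct.nhds_eq_comap, Filter.mem_comap] at hU
  obtain ⟨P, hP, hPU⟩ := hU
  rw [map_one, show (1 : M2 R × (M2 R)ᵐᵒᵖ) = (1, 1) from rfl, mem_nhds_prod_iff] at hP
  obtain ⟨P1, hP1, P2, hP2, hsub⟩ := hP
  obtain ⟨V1, hV1, h1⟩ := APX_nhds_mat P1 hP1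
  have hP2' : MulOpposite.op ⁻¹' P2 ∈ 𝓝 (1 : M2 R) := by
    apply (MulOpposite.continuous_op (M := M2 R)).continuousAt.preimage_mem_nhds
    simpa using hP2
  obtain ⟨V2, hV2, h2⟩ := APX_nhds_mat _ hP2'
  obtain ⟨I, hI, hIV⟩ := hb (V1 ∩ V2) (Filter.inter_mem hV1 hV2)
  refine ⟨I, hI, fun u hu hu' => hPU (hsub ⟨?_, ?_⟩)⟩
  · exact h1 _ (fun i j => (hIV (hu i j)).1)
  · exact h2 _ (fun i j => (hIV (hu' i j)).2)

theorem APX_row (hHAV : HAV_stmt) (hAMU : AMU_stmt) (hSQU : SQU_stmt) (hSUB : SUB_stmt)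
    (hLTR : LTR_stmt) (hLLE : LLE_stmt) (hLCT : LCT_stmt) (hLSM : LSM_stmt) (hADM : ADM_stmt)
    (hDEN : DEN_stmt) : APX_stmt := by
  intro p R _ _ _ _ _ _ J hp hp2 hS Γ hΓ hcl g hg
  obtain ⟨hgS, hgT⟩ := (((hSUB p R J hp hp2 hS).2 (Lc Γ 1)
    (hADM p R J hp hp2 hS Γ hΓ 1)).1 g).1 hg
  have hle : ∀ m n : ℕ, m ≤ n → Lc Γ n ≤ Lc Γ m := by
    intro m n hmn
    induction n, hmn using Nat.le_induction with
    | base => exact le_refl _
    | succ n _ ih => exact ((hLLE R Γ).1 n).trans ih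
  have claim : ∀ n : ℕ, 1 ≤ n → ∃ γ ∈ Γ, TH (γ⁻¹ * g) ∈ Lc Γ n := by
    intro n hn
    induction n, hn using Nat.le_induction with
    | base => exact ⟨1, Γ.one_mem, by simpa using hgT⟩
    | succ n hn ih =>
      obtain ⟨γ, hγ, hT⟩ := ih
      set g' := γ⁻¹ * g with hg'
      have hg'S : g' ∈ Sg J := (Sg J).mul_mem ((Sg J).inv_mem (hΓ hγ)) hgS
      obtain ⟨h, hh, hh1, hh2⟩ := hDEN p R J hp hp2 hS Γ hΓ hcl n hn (TH g') hT
      refine ⟨γ * h, Γ.mul_mem hγ hh, ?_⟩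
      have e : (γ * h)⁻¹ * g = h⁻¹ * g' := by rw [hg']; group
      have hcln2 : IsClosed (Lc Γ (n + 2) : Set (M2 R)) := (hLTR p R J hp hp2 hS Γ hΓ (n + 2)).1
      have a1 : (ht h - 1) • TH g' ∈ Lc Γ (n + 2) :=
        hAMU p R J hp hp2 hS h (hΓ hh) (Lc Γ (n + 2)) (Lc Γ n) hcln2 (hle _ _ (by omega))
          (fun Z hZ => hLCT p R J hp hp2 hS Γ hΓ n hn _ (hle 0 n (by omega) hh1) _
            (hle 0 n (by omega) hh1) Z hZ) _ hT
      have a2 : (ht g' - 1) • TH h ∈ Lc Γ (n + 2) :=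
        hAMU p R J hp hp2 hS g' hg'S (Lc Γ (n + 2)) (Lc Γ n) hcln2 (hle _ _ (by omega))
          (fun Z hZ => hLCT p R J hp hp2 hS Γ hΓ n hn _ (hle 0 n (by omega) hT) _
            (hle 0 n (by omega) hT) Z hZ) _ hh1
      have a3 : Br (TH h) (TH g') ∈ Lc Γ (n + 1) :=
        hle (n + 1) (n + n + 1) (by omega) ((hLLE R Γ).2 n n _ hh1 _ hT)
      have a4 : ⅟(2 : R) • Br (TH h) (TH g') ∈ Lc Γ (n + 1) :=
        (hHAV p R J hp hp2 hS).1 _ (hLTR p R J hp hp2 hS Γ hΓ (n + 1)).1 _ a3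
      have b1 := hle (n + 1) (n + 2) (by omega) a1
      have b2 := hle (n + 1) (n + 2) (by omega) a2
      rw [e, Lib_TH_mul, Lib_TH_inv J h (hΓ hh), Lib_ht_inv J h (hΓ hh)]
      have e2 : ht h • TH g' + ht g' • (-TH h) + ⅟(2 : R) • Br (-TH h) (TH g')
          = (ht h - 1) • TH g' - (ht g' - 1) • TH h - (TH h - TH g')
            - ⅟(2 : R) • Br (TH h) (TH g') := by
        rw [Lib_neg_Br, smul_neg, smul_neg, sub_smul, sub_smul, one_smul, one_smul]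
        abel
      have e3 : ht h⁻¹ = ht h := Lib_ht_inv J h (hΓ hh)
      rw [e2]
      exact (Lc Γ (n + 1)).sub_mem ((Lc Γ (n + 1)).sub_mem ((Lc Γ (n + 1)).sub_mem b1 b2) hh2) a4
  -- density
  have hgcl : g ∈ closure (Γ : Set (GL (Fin 2) R)) := by
    rw [mem_closure_iff_nhds]
    intro U hU
    have hU1 : (fun x : GL (Fin 2) R => g * x⁻¹) ⁻¹' U ∈ 𝓝 (1 : GL (Fin 2) R) := by
      have hc : Continuous (fun x : GL (Fin 2) R => g * x⁻¹) :=
        continuous_const.mul continuous_inv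
      apply hc.continuousAt.preimage_mem_nhds
      simpa using hU
    obtain ⟨I, hI, hIU⟩ := APX_nhds hS.basis _ hU1
    obtain ⟨n, hn⟩ := hLSM p R J hp hp2 hS Γ hΓ I hI
    obtain ⟨γ, hγ, hT⟩ := claim (n + 1) (by omega)
    have hent := hn _ ((hLLE R Γ).1 n hT)
    have hg'S : γ⁻¹ * g ∈ Sg J := (Sg J).mul_mem ((Sg J).inv_mem (hΓ hγ)) hgS
    set g' := γ⁻¹ * g with hg'
    have hJ1 : ht g' - 1 ∈ J := Lib_ht_sub_one J g' hg'S
    obtain ⟨y, -, hy, -⟩ := (hSQU p R J hp hp2 hS).1 (⅟(2 : R) * (ht g' - 1))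
      (J.mul_mem_left _ hJ1)
    have hBI : Bf (TH g') (TH g') ∈ I := by
      rw [Lib_Bf]
      exact I.add_mem (I.add_mem (I.mul_mem_left _ (hent 0 0)) (I.mul_mem_left _ (hent 1 0)))
        (I.add_mem (I.mul_mem_left _ (hent 0 1)) (I.mul_mem_left _ (hent 1 1)))
    have hhI : ht g' - 1 ∈ I := by
      have hsq := Lib_ht_sq J g' hg'S
      have hh := Lib_half (R := R)
      have e1 : ht g' - 1 = (⅟(2 : R) * (1 + y) * ⅟(2 : R)) * Bf (TH g') (TH g') := by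
        generalize ht g' = a at *
        generalize Bf (TH g') (TH g') = b at *
        generalize ⅟(2 : R) = t at *
        linear_combination (t * (1 + y)) * hsq + (-(a - 1)) * hy + (-(1 + y) * (a - 1)) * hh
      rw [e1]
      exact I.mul_mem_left _ hBI
    have hgI : ∀ i j, ((g' : M2 R) - 1) i j ∈ I := by
      intro i j
      have : ((g' : M2 R) - 1) i j = (ht g' - 1) * (1 : M2 R) i j + TH g' i j := by
        have e := congrArg (fun M : M2 R => M i j) (Lib_decomp g')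
        simp only [Matrix.add_apply, Matrix.smul_apply, smul_eq_mul] at e
        rw [Matrix.sub_apply, e]
        ring
      rw [this]
      exact I.add_mem (I.mul_mem_right _ hhI) (hent i j)
    have hgI' : ∀ i j, (((g'⁻¹ : GL (Fin 2) R) : M2 R) - 1) i j ∈ I := by
      intro i j
      have : (((g'⁻¹ : GL (Fin 2) R) : M2 R) - 1) i j
          = (ht g' - 1) * (1 : M2 R) i j - TH g' i j := by
        rw [Lib_inv J g' hg'S]
        simp only [Matrix.sub_apply, Matrix.smul_apply, smul_eq_mul]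
        ring
      rw [this]
      exact I.sub_mem (I.mul_mem_right _ hhI) (hent i j)
    have hin := hIU g' hgI hgI'
    refine ⟨γ, ?_, hγ⟩
    have : g * g'⁻¹ = γ := by rw [hg']; group
    have h5 : g * g'⁻¹ ∈ U := hin
    rwa [this] at h5
  rwa [hcl.closure_eq] at hgcl

end Pool.Agent.PP2
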