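import Pool.Agent.helper96.PP2.SpecC

namespace Pool.Agent.PP2

open Topology Matrix

theorem RNK_mem_sN {R : Type} [CommRing R] (c : R) (V : AddSubgroup (M2 R)) (W : M2 R) :
    W ∈ sN c V ↔ ∃ U ∈ V, c • U = W := by
  simp [sN, AddSubgroup.mem_map]

theorem RNK_sN_le {R : Type} [CommRing R] (p m : ℕ) (V : AddSubgroup (M2 R)) :
    sN ((p : R) ^ m) V ≤ V := by
  intro W hW
  obtain ⟨U, hU, rfl⟩ := (RNK_mem_sN _ _ _).1 hW
  have : ((p : R) ^ m) • U = (p ^ m) • U := by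
    rw [← Nat.cast_pow, Nat.cast_smul_eq_nsmul]
  rw [this]
  exact V.nsmul_mem hU _

theorem RNK_inj {R : Type} [CommRing R] (p m : ℕ) (V : AddSubgroup (M2 R))
    (hV : ∀ W ∈ V, (p : R) • W = 0 → W = 0) : ∀ W ∈ V, ((p : R) ^ m) • W = 0 → W = 0 := by
  induction m with
  | zero => intro W _ h; simpa using h
  | succ m ih =>
    intro W hW h
    rw [pow_succ, mul_smul] at h
    have h1 : (p : R) • W ∈ V := by
      rw [Nat.cast_smul_eq_nsmul]; exact V.nsmul_mem hW _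
    exact hV W hW (ih _ h1 h)

theorem RNK_index {R : Type} [CommRing R] (p : ℕ) (V : AddSubgroup (M2 R))
    (hV : ∀ W ∈ V, (p : R) • W = 0 → W = 0) (m : ℕ) :
    (sN ((p : R) ^ m) V).relIndex V = ((sN (p : R) V).relIndex V) ^ m := by
  induction m with
  | zero =>
    have : sN ((p : R) ^ 0) V = V := by
      ext W
      rw [RNK_mem_sN]
      simp
    rw [this, AddSubgroup.relIndex_self, pow_zero]
  | succ m ih =>
    have hle1 : sN ((p : R) ^ (m + 1)) V ≤ sN ((p : R) ^ m) V := by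
      intro W hW
      obtain ⟨U, hU, rfl⟩ := (RNK_mem_sN _ _ _).1 hW
      refine (RNK_mem_sN _ _ _).2 ⟨(p : R) • U, ?_, ?_⟩
      · rw [Nat.cast_smul_eq_nsmul]; exact V.nsmul_mem hU _
      · rw [smul_smul, pow_succ]
    have h1 := AddSubgroup.relIndex_mul_relIndex _ _ _ hle1 (RNK_sN_le p m V)
    rw [← h1, ih, pow_succ ((sN (p : R) V).relIndex V), mul_comm]
    congr 1
    set f : V →+ M2 R := (DistribSMul.toAddMonoidHom (M2 R) ((p : R) ^ m)).comp V.subtype with hf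
    have hfv : ∀ v : V, f v = ((p : R) ^ m) • (v : M2 R) := fun v => rfl
    have hinj : Function.Injective f := by
      rw [injective_iff_map_eq_zero]
      intro v hv
      rw [hfv] at hv
      exact Subtype.ext (RNK_inj p m V hV v v.2 hv)
    have h2 := AddSubgroup.relIndex_map_map_of_injective
      ((sN (p : R) V).addSubgroupOf V) ⊤ hinj
    have e1 : ((sN (p : R) V).addSubgroupOf V).map f = sN ((p : R) ^ (m + 1)) V := by
      ext W
      rw [AddSubgroup.mem_map, RNK_mem_sN]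
      constructor
      · rintro ⟨v, hv, rfl⟩
        rw [AddSubgroup.mem_addSubgroupOf, RNK_mem_sN] at hv
        obtain ⟨U, hU, hUv⟩ := hv
        refine ⟨U, hU, ?_⟩
        rw [hfv, ← hUv, smul_smul, pow_succ]
      · rintro ⟨U, hU, rfl⟩
        have h3 : (p : R) • U ∈ V := by
          rw [Nat.cast_smul_eq_nsmul]; exact V.nsmul_mem hU _
        refine ⟨⟨(p : R) • U, h3⟩, ?_, ?_⟩
        · rw [AddSubgroup.mem_addSubgroupOf, RNK_mem_sN]
          exact ⟨U, hU, rfl⟩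
        · rw [hfv, smul_smul, pow_succ]
    have e2 : (⊤ : AddSubgroup V).map f = sN ((p : R) ^ m) V := by
      ext W
      rw [AddSubgroup.mem_map, RNK_mem_sN]
      constructor
      · rintro ⟨v, -, rfl⟩
        exact ⟨v, v.2, rfl⟩
      · rintro ⟨U, hU, rfl⟩
        exact ⟨⟨U, hU⟩, trivial, rfl⟩
    rw [e1, e2, AddSubgroup.relIndex_top_right] at h2
    rw [h2]
    rfl

theorem RNK_pigeon {R : Type} [CommRing R] (p : ℕ) (V : AddSubgroup (M2 R)) (w1 w2 w3 : M2 R)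
    (h1 : w1 ∈ V) (h2 : w2 ∈ V) (h3 : w3 ∈ V) (m n : ℕ)
    (h0 : (sN ((p : R) ^ m) V).relIndex V ≠ 0)
    (hlt : (sN ((p : R) ^ m) V).relIndex V < p ^ (3 * n)) :
    ∃ i j k : ℤ, (i ≠ 0 ∨ j ≠ 0 ∨ k ≠ 0) ∧ |i| < (p : ℤ) ^ n ∧ |j| < (p : ℤ) ^ n ∧
      |k| < (p : ℤ) ^ n ∧ i • w1 + j • w2 + k • w3 ∈ sN ((p : R) ^ m) V := by
  set S := (sN ((p : R) ^ m) V).addSubgroupOf V with hS
  have hfin : Finite (V ⧸ S) := Nat.finite_of_card_ne_zero h0
  have : Fintype (V ⧸ S) := Fintype.ofFinite _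
  let F : Fin (p ^ n) × Fin (p ^ n) × Fin (p ^ n) → V ⧸ S := fun t =>
    QuotientAddGroup.mk ((t.1 : ℕ) • (⟨w1, h1⟩ : V) + (t.2.1 : ℕ) • (⟨w2, h2⟩ : V)
      + (t.2.2 : ℕ) • (⟨w3, h3⟩ : V))
  have hcard : Fintype.card (V ⧸ S) < Fintype.card (Fin (p ^ n) × Fin (p ^ n) × Fin (p ^ n)) := by
    have : Fintype.card (V ⧸ S) = (sN ((p : R) ^ m) V).relIndex V := by
      rw [← Nat.card_eq_fintype_card]; rfl
    rw [this, Fintype.card_prod, Fintype.card_prod, Fintype.card_fin]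
    calc _ < p ^ (3 * n) := hlt
      _ = p ^ n * (p ^ n * p ^ n) := by rw [← pow_add, ← pow_add]; congr 1; ring
  obtain ⟨⟨a, b, c⟩, ⟨a', b', c'⟩, hne, heq⟩ := Fintype.exists_ne_map_eq_of_card_lt F hcard
  refine ⟨(a' : ℤ) - a, (b' : ℤ) - b, (c' : ℤ) - c, ?_, ?_, ?_, ?_, ?_⟩
  · by_contra hcon
    push Not at hcon
    obtain ⟨e1, e2, e3⟩ := hcon
    apply hne
    have e1' : (a : ℕ) = a' := by omega
    have e2' : (b : ℕ) = b' := by omega
    have e3' : (c : ℕ) = c' := by omega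
    rw [Prod.mk.injEq, Prod.mk.injEq]
    exact ⟨Fin.ext e1', Fin.ext e2', Fin.ext e3'⟩
  · have h1 := a.2
    have h2 := a'.2
    have : ((p ^ n : ℕ) : ℤ) = (p : ℤ) ^ n := by push_cast; rfl
    rw [← this, abs_lt]
    constructor <;> omega
  · have h1 := b.2
    have h2 := b'.2
    have : ((p ^ n : ℕ) : ℤ) = (p : ℤ) ^ n := by push_cast; rfl
    rw [← this, abs_lt]
    constructor <;> omega
  · have h1 := c.2
    have h2 := c'.2
    have : ((p ^ n : ℕ) : ℤ) = (p : ℤ) ^ n := by push_cast; rfl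
    rw [← this, abs_lt]
    constructor <;> omega
  · have h4 := (QuotientAddGroup.eq.1 heq)
    rw [hS, AddSubgroup.mem_addSubgroupOf] at h4
    have e : ((-((a : ℕ) • (⟨w1, h1⟩ : V) + (b : ℕ) • (⟨w2, h2⟩ : V) + (c : ℕ) • (⟨w3, h3⟩ : V))
        + ((a' : ℕ) • (⟨w1, h1⟩ : V) + (b' : ℕ) • (⟨w2, h2⟩ : V) + (c' : ℕ) • (⟨w3, h3⟩ : V)) : V)
          : M2 R)
        = ((a' : ℤ) - a) • w1 + ((b' : ℤ) - b) • w2 + ((c' : ℤ) - c) • w3 := by
      push_cast
      simp only [sub_smul, natCast_zsmul]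
      abel
    rw [← e]
    exact h4

theorem RNK_div {R : Type} [CommRing R] (p : ℕ) (hp : p.Prime) (V : AddSubgroup (M2 R))
    (hV : ∀ W ∈ V, (p : R) • W = 0 → W = 0) (w1 w2 w3 : M2 R)
    (h1 : w1 ∈ V) (h2 : w2 ∈ V) (h3 : w3 ∈ V) (n : ℕ) :
    ∀ N : ℕ, ∀ i j k : ℤ, (i ≠ 0 ∨ j ≠ 0 ∨ k ≠ 0) → |i| < (p : ℤ) ^ n → |j| < (p : ℤ) ^ n →
      |k| < (p : ℤ) ^ n → i • w1 + j • w2 + k • w3 ∈ sN ((p : R) ^ (N + n)) V →
      ∃ i' j' k' : ℤ, (¬ (p : ℤ) ∣ i' ∨ ¬ (p : ℤ) ∣ j' ∨ ¬ (p : ℤ) ∣ k') ∧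
        i' • w1 + j' • w2 + k' • w3 ∈ sN ((p : R) ^ N) V := by
  induction n with
  | zero =>
    intro N i j k hne hi hj hk _
    exfalso
    rw [pow_zero, Int.abs_lt_one_iff] at hi hj hk
    tauto
  | succ n ih =>
    intro N i j k hne hi hj hk hmem
    by_cases hd : (¬ (p : ℤ) ∣ i ∨ ¬ (p : ℤ) ∣ j ∨ ¬ (p : ℤ) ∣ k)
    · refine ⟨i, j, k, hd, ?_⟩
      obtain ⟨U, hU, hUe⟩ := (RNK_mem_sN _ _ _).1 hmem
      refine (RNK_mem_sN _ _ _).2 ⟨((p : R) ^ (n + 1)) • U, ?_, ?_⟩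
      · exact RNK_sN_le p (n + 1) V ((RNK_mem_sN _ _ _).2 ⟨U, hU, rfl⟩)
      · rw [smul_smul, ← pow_add, hUe]
    · push Not at hd
      obtain ⟨⟨i1, rfl⟩, ⟨j1, rfl⟩, ⟨k1, rfl⟩⟩ := hd
      have hppos : (0 : ℤ) < p := by exact_mod_cast hp.pos
      have habs : ∀ x : ℤ, |(p : ℤ) * x| < (p : ℤ) ^ (n + 1) → |x| < (p : ℤ) ^ n := by
        intro x hx
        rw [abs_mul, abs_of_pos hppos, pow_succ, mul_comm ((p : ℤ) ^ n)] at hx
        exact lt_of_mul_lt_mul_left hx hppos.le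
      apply ih N i1 j1 k1 ?_ (habs _ hi) (habs _ hj) (habs _ hk) ?_
      · rcases hne with h | h | h
        · exact Or.inl (right_ne_zero_of_mul h)
        · exact Or.inr (Or.inl (right_ne_zero_of_mul h))
        · exact Or.inr (Or.inr (right_ne_zero_of_mul h))
      · obtain ⟨U, hU, hUe⟩ := (RNK_mem_sN _ _ _).1 hmem
        refine (RNK_mem_sN _ _ _).2 ⟨U, hU, ?_⟩
        have hs : (i1 • w1 + j1 • w2 + k1 • w3) - ((p : R) ^ (N + n)) • U ∈ V := by
          refine V.sub_mem (V.add_mem (V.add_mem (V.zsmul_mem h1 _) (V.zsmul_mem h2 _))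
            (V.zsmul_mem h3 _)) ?_
          exact RNK_sN_le p (N + n) V ((RNK_mem_sN _ _ _).2 ⟨U, hU, rfl⟩)
        have hz := hV _ hs (by
          have e5 : N + n + 1 = N + (n + 1) := by omega
          rw [smul_sub, smul_smul, ← pow_succ', e5, hUe, sub_eq_zero]
          simp only [smul_add, mul_smul, Nat.cast_smul_eq_nsmul])
        exact (sub_eq_zero.1 hz).symm

theorem RNK_card_aux (p : ℕ) (hp : p.Prime) (A : Type) [AddCommGroup A] [Finite A]
    (hk : ∀ x : A, p • x = 0) : ∃ d : ℕ, Nat.card A = p ^ d := by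
  have : Fact p.Prime := ⟨hp⟩
  let M : Module (ZMod p) A := AddCommGroup.zmodModule hk
  have hf : Module.Finite (ZMod p) A := Module.Finite.of_finite
  refine ⟨Module.finrank (ZMod p) A, ?_⟩
  have h := @Module.natCard_eq_pow_finrank (ZMod p) A _ _ _ hf
  rw [Nat.card_zmod] at h
  exact h

theorem RNK_card {R : Type} [CommRing R] (p : ℕ) (hp : p.Prime) (V : AddSubgroup (M2 R))
    (h0 : (sN (p : R) V).relIndex V ≠ 0) : ∃ d : ℕ, (sN (p : R) V).relIndex V = p ^ d := by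
  set S := (sN (p : R) V).addSubgroupOf V with hS
  have hfin : Finite (V ⧸ S) := Nat.finite_of_card_ne_zero h0
  have hk : ∀ x : V ⧸ S, p • x = 0 := by
    intro x
    obtain ⟨v, rfl⟩ := QuotientAddGroup.mk_surjective x
    rw [← QuotientAddGroup.mk_nsmul, QuotientAddGroup.eq_zero_iff, hS,
      AddSubgroup.mem_addSubgroupOf, RNK_mem_sN]
    refine ⟨v, v.2, ?_⟩
    rw [Nat.cast_smul_eq_nsmul]
    rfl
  exact RNK_card_aux p hp (V ⧸ S) hk

theorem RNK_row (hSQU : SQU_stmt) : RNK_stmt := by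
  intro p R _ _ _ _ _ _ J hp hp2 hS V X Y Z h1 h2 h3 hV h0 hT
  obtain ⟨d, hd⟩ := RNK_card p hp V h0
  refine ⟨d, ?_, hd⟩
  by_contra hlt
  push Not at hlt
  have hd2 : d ≤ 2 := by omega
  have hp1 : 1 < p := hp.one_lt
  -- the form value is divisible by all powers
  have key : ∀ N : ℕ, ∃ r : R, Tf X Y Z = (p : R) ^ N * r := by
    intro N
    have hidx := RNK_index p V hV (3 * N + 1)
    rw [hd, ← pow_mul] at hidx
    obtain ⟨i, j, k, hne, hi, hj, hk, hmem⟩ := RNK_pigeon p V _ _ _ h1 h2 h3 (3 * N + 1)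
      (2 * N + 1) (by rw [hidx]; exact pow_ne_zero _ hp.ne_zero) (by
        rw [hidx]
        apply Nat.pow_lt_pow_right hp1
        calc d * (3 * N + 1) ≤ 2 * (3 * N + 1) := Nat.mul_le_mul_right _ hd2
          _ < 3 * (2 * N + 1) := by omega)
    have hmem' : i • Br Y Z + j • Br Z X + k • Br X Y ∈ sN ((p : R) ^ (N + (2 * N + 1))) V := by
      have : N + (2 * N + 1) = 3 * N + 1 := by omega
      rw [this]
      exact hmem
    obtain ⟨i', j', k', hnd, hm⟩ := RNK_div p hp V hV _ _ _ h1 h2 h3 (2 * N + 1) N i j k hne hi hj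
      hk hmem'
    obtain ⟨U, hU, hUe⟩ := (RNK_mem_sN _ _ _).1 hm
    -- units
    have hunit : ∀ a : ℤ, ¬ (p : ℤ) ∣ a → ∃ z : R, z * (a : R) = 1 := by
      intro a ha
      have hcop : IsCoprime a (p : ℤ) := by
        have : IsCoprime (p : ℤ) a := by
          rw [Int.isCoprime_iff_gcd_eq_one]
          have hh := (Nat.coprime_primes hp hp)
          have : Nat.Coprime p a.natAbs := by
            rw [hp.coprime_iff_not_dvd]
            intro hdv
            exact ha (Int.natCast_dvd.2 hdv)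
          simpa [Int.gcd] using this
        exact this.symm
      obtain ⟨x, y, hxy⟩ := hcop
      obtain ⟨z, -, hz, -⟩ := (hSQU p R J hp hp2 hS).1 (-((y : R) * (p : R)))
        (J.neg_mem (J.mul_mem_left _ hS.pmem))
      refine ⟨(1 + z) * (x : R), ?_⟩
      have hxy' : (x : R) * (a : R) + (y : R) * (p : R) = 1 := by
        have := congrArg (fun t : ℤ => (t : R)) hxy
        simpa using this
      linear_combination (1 + z) * hxy' + hz
    have hint : ∀ (a : ℤ) (W W' : M2 R), Bf W (a • W') = (a : R) * Bf W W' := by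
      intro a W W'
      rw [← Int.cast_smul_eq_zsmul R a W', Lib_Bf_smul]
    have fin : ∀ (a : ℤ) (W : M2 R), ¬ (p : ℤ) ∣ a →
        Bf W (i' • Br Y Z + j' • Br Z X + k' • Br X Y) = (a : R) * Tf X Y Z →
        ∃ r : R, Tf X Y Z = (p : R) ^ N * r := by
      intro a W ha hW
      obtain ⟨z, hz⟩ := hunit a ha
      refine ⟨z * Bf W U, ?_⟩
      rw [← hUe, Lib_Bf_smul] at hW
      linear_combination (-Tf X Y Z) * hz - z * hW
    have tX : Bf X (i' • Br Y Z + j' • Br Z X + k' • Br X Y) = (i' : R) * Tf X Y Z := by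
      rw [Lib_Bf_add, Lib_Bf_add, hint, hint, hint]
      have e2 : Bf X (Br Z X) = 0 := by
        have : Bf X (Br Z X) = Tf X Z X := rfl
        rw [this, Lib_Tf_swap, Lib_Tf_self, neg_zero]
      have e3 : Bf X (Br X Y) = 0 := Lib_Tf_self X Y
      have e1 : Bf X (Br Y Z) = Tf X Y Z := rfl
      rw [e1, e2, e3]
      ring
    have tY : Bf Y (i' • Br Y Z + j' • Br Z X + k' • Br X Y) = (j' : R) * Tf X Y Z := by
      rw [Lib_Bf_add, Lib_Bf_add, hint, hint, hint]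
      have e2 : Bf Y (Br Z X) = Tf X Y Z := by
        have : Bf Y (Br Z X) = Tf Y Z X := rfl
        rw [this, ← Lib_Tf_cycle]
      have e3 : Bf Y (Br X Y) = 0 := by
        have : Bf Y (Br X Y) = Tf Y X Y := rfl
        rw [this, Lib_Tf_swap, Lib_Tf_self, neg_zero]
      have e1 : Bf Y (Br Y Z) = 0 := Lib_Tf_self Y Z
      rw [e1, e2, e3]
      ring
    have tZ : Bf Z (i' • Br Y Z + j' • Br Z X + k' • Br X Y) = (k' : R) * Tf X Y Z := by
      rw [Lib_Bf_add, Lib_Bf_add, hint, hint, hint]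
      have e2 : Bf Z (Br Z X) = 0 := Lib_Tf_self Z X
      have e3 : Bf Z (Br X Y) = Tf X Y Z := by
        have : Bf Z (Br X Y) = Tf Z X Y := rfl
        rw [this, Lib_Tf_cycle]
      have e1 : Bf Z (Br Y Z) = 0 := by
        have : Bf Z (Br Y Z) = Tf Z Y Z := rfl
        rw [this, Lib_Tf_swap, Lib_Tf_self, neg_zero]
      rw [e1, e2, e3]
      ring
    rcases hnd with h | h | h
    · exact fin i' X h tX
    · exact fin j' Y h tY
    · exact fin k' Z h tZ
  -- conclusion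
  have hnhds : ({Tf X Y Z}ᶜ : Set R) ∈ 𝓝 (0 : R) :=
    isOpen_compl_singleton.mem_nhds (fun h => hT (Set.mem_singleton_iff.1 h).symm)
  obtain ⟨I, hI, hIs⟩ := hS.basis _ hnhds
  obtain ⟨n, hn⟩ := hS.nil I hI
  obtain ⟨r, hr⟩ := key n
  have : Tf X Y Z ∈ I := by
    rw [hr]
    exact I.mul_mem_right _ (hn (Ideal.pow_mem_pow hS.pmem n))
  exact hIs this rfl

end Pool.Agent.PP2
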