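import Pool.Agent.helper96.PP2.SpecC

namespace Pool.Agent.PP2

open Topology Matrix

theorem VAD_sup {A : Type} [AddCommGroup A] (K H1 H2 : AddSubgroup A) (h1 : K.relIndex H1 ≠ 0)
    (h2 : K.relIndex H2 ≠ 0) : K.relIndex (H1 ⊔ H2) ≠ 0 := by
  have a : K.relIndex (H1 ⊔ K) ≠ 0 := by rwa [AddSubgroup.relIndex_sup_right]
  have b : (H1 ⊔ K).relIndex H2 ≠ 0 := fun h =>
    h2 (AddSubgroup.relIndex_eq_zero_of_le_left le_sup_right h)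
  have c : (H1 ⊔ K).relIndex (H2 ⊔ (H1 ⊔ K)) ≠ 0 := by rwa [AddSubgroup.relIndex_sup_right]
  have d : K.relIndex (H2 ⊔ (H1 ⊔ K)) ≠ 0 := AddSubgroup.relIndex_ne_zero_trans a c
  exact fun h => d (AddSubgroup.relIndex_eq_zero_of_le_right
    (sup_le (le_sup_left.trans le_sup_right) le_sup_left) h)

theorem VAD_mem_CX {R : Type} [CommRing R] (C : Subring R) (X W : M2 R) :
    W ∈ CX C X ↔ ∃ c ∈ C, c • X = W := by
  simp [CX, AddSubgroup.mem_map]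

theorem VAD_mem {R : Type} [CommRing R] (C : Subring R) (w1 w2 w3 W : M2 R) :
    W ∈ CX C w1 ⊔ CX C w2 ⊔ CX C w3 ↔
      ∃ a ∈ C, ∃ b ∈ C, ∃ c ∈ C, a • w1 + b • w2 + c • w3 = W := by
  constructor
  · intro h
    obtain ⟨U, hU, V3, hV3, rfl⟩ := AddSubgroup.mem_sup.1 h
    obtain ⟨V1, hV1, V2, hV2, rfl⟩ := AddSubgroup.mem_sup.1 hU
    obtain ⟨a, ha, rfl⟩ := (VAD_mem_CX _ _ _).1 hV1
    obtain ⟨b, hb, rfl⟩ := (VAD_mem_CX _ _ _).1 hV2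
    obtain ⟨c, hc, rfl⟩ := (VAD_mem_CX _ _ _).1 hV3
    exact ⟨a, ha, b, hb, c, hc, rfl⟩
  · rintro ⟨a, ha, b, hb, c, hc, rfl⟩
    exact AddSubgroup.mem_sup.2 ⟨_, AddSubgroup.mem_sup.2 ⟨_, (VAD_mem_CX _ _ _).2 ⟨a, ha, rfl⟩, _,
      (VAD_mem_CX _ _ _).2 ⟨b, hb, rfl⟩, rfl⟩, _, (VAD_mem_CX _ _ _).2 ⟨c, hc, rfl⟩, rfl⟩

theorem VAD_closed {R : Type} [CommRing R] [TopologicalSpace R] [IsTopologicalRing R]
    [CompactSpace R] [T2Space R] (C : Subring R) (hC : IsClosed (C : Set R)) (w1 w2 w3 : M2 R) :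
    IsClosed ((CX C w1 ⊔ CX C w2 ⊔ CX C w3 : AddSubgroup (M2 R)) : Set (M2 R)) := by
  have hcomp : IsCompact ((C : Set R) ×ˢ ((C : Set R) ×ˢ (C : Set R))) :=
    hC.isCompact.prod (hC.isCompact.prod hC.isCompact)
  have hcont : Continuous (fun q : R × R × R => q.1 • w1 + q.2.1 • w2 + q.2.2 • w3) := by
    fun_prop
  have himg := (hcomp.image hcont).isClosed
  have e : ((CX C w1 ⊔ CX C w2 ⊔ CX C w3 : AddSubgroup (M2 R)) : Set (M2 R))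
      = (fun q : R × R × R => q.1 • w1 + q.2.1 • w2 + q.2.2 • w3) ''
        ((C : Set R) ×ˢ ((C : Set R) ×ˢ (C : Set R))) := by
    ext W
    rw [SetLike.mem_coe, VAD_mem]
    constructor
    · rintro ⟨a, ha, b, hb, c, hc, rfl⟩
      exact ⟨(a, b, c), ⟨ha, hb, hc⟩, rfl⟩
    · rintro ⟨⟨a, b, c⟩, ⟨ha, hb, hc⟩, rfl⟩
      exact ⟨a, ha, b, hb, c, hc, rfl⟩
  rw [e]
  exact himg

theorem VAD_br {R : Type} [CommRing R] (X Y Z : M2 R) (hX : Matrix.trace X = 0)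
    (hZ : Matrix.trace Z = 0) :
    Br (Br Y Z) (Br Z X) = (-(2 : R)) • (Tf X Y Z • Z) := by
  have h1 : Bf (Br Y Z) Z = 0 := by
    simp only [Lib_Bf, Br, Matrix.sub_apply, Matrix.mul_apply, Fin.sum_univ_two]; ring
  have h2 : Bf (Br Y Z) X = Tf X Y Z := by rw [Lib_Bf_comm]; rfl
  rw [Lib_I1 (Br Y Z) Z X (Lib_trace_Br Y Z) hZ hX, h1, h2, zero_smul, zero_sub, smul_neg, neg_smul]

theorem VAD_brV {R : Type} [CommRing R] (w1 w2 w3 : M2 R) (a b c a' b' c' : R) :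
    Br (a • w1 + b • w2 + c • w3) (a' • w1 + b' • w2 + c' • w3)
      = (a * b' - b * a') • Br w1 w2 + (b * c' - c * b') • Br w2 w3
        + (c * a' - a * c') • Br w3 w1 := by
  simp only [Lib_Br_add, Lib_add_Br, Lib_Br_smul, Lib_smul_Br, Lib_Br_self, smul_zero]
  rw [Lib_Br_swap w2 w1, Lib_Br_swap w3 w2, Lib_Br_swap w1 w3]
  module

theorem VAD_row (hHAV : HAV_stmt) (hSUB : SUB_stmt) (hLTR : LTR_stmt) (hLLE : LLE_stmt)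
    (hADM : ADM_stmt) (hAPX : APX_stmt) (hHCL : HCL_stmt) (hCTM : CTM_stmt) (hMOX : MOX_stmt)
    (hAFI : AFI_stmt) : VAD_stmt := by
  intro p R _ _ _ _ _ _ J hp hp2 hS Γ hΓ hcl hH3 X hX Y hY Z hZ
  obtain ⟨hC, hCB, hCM⟩ := hCTM p R J hp hp2 hS Γ hΓ
  set C := Ct Γ with hCdef
  have hL1 : Lc Γ 1 ≤ LL Γ := (hLLE R Γ).1 0
  have hbr : ∀ U ∈ Lc Γ 1, ∀ W ∈ Lc Γ 1, Br U W ∈ Lc Γ 1 := (hADM p R J hp hp2 hS Γ hΓ 1).br
  have htr : ∀ U ∈ Lc Γ 1, Matrix.trace U = 0 := fun U hU => ((hLTR p R J hp hp2 hS Γ hΓ 1).2 U hU).1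
  have hent : ∀ U ∈ Lc Γ 1, ∀ i j, U i j ∈ J := fun U hU => ((hLTR p R J hp hp2 hS Γ hΓ 1).2 U hU).2
  set w1 := Br Y Z with hw1
  set w2 := Br Z X with hw2
  set w3 := Br X Y with hw3
  have m1 : w1 ∈ Lc Γ 1 := hbr _ hY _ hZ
  have m2 : w2 ∈ Lc Γ 1 := hbr _ hZ _ hX
  have m3 : w3 ∈ Lc Γ 1 := hbr _ hX _ hY
  set V : AddSubgroup (M2 R) := CX C w1 ⊔ CX C w2 ⊔ CX C w3 with hV
  have hVmem : ∀ W, W ∈ V ↔ ∃ a ∈ C, ∃ b ∈ C, ∃ c ∈ C, a • w1 + b • w2 + c • w3 = W :=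
    fun W => VAD_mem C w1 w2 w3 W
  have hVle : V ≤ Lc Γ 1 := by
    intro W hW
    obtain ⟨a, ha, b, hb, c, hc, rfl⟩ := (hVmem W).1 hW
    exact (Lc Γ 1).add_mem ((Lc Γ 1).add_mem (hCM a ha 1 _ m1) (hCM b hb 1 _ m2)) (hCM c hc 1 _ m3)
  have hVcl : IsClosed (V : Set (M2 R)) := VAD_closed C hC w1 w2 w3
  have hVsmul : ∀ s ∈ C, ∀ W ∈ V, s • W ∈ V := by
    intro s hs W hW
    obtain ⟨a, ha, b, hb, c, hc, rfl⟩ := (hVmem W).1 hW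
    refine (hVmem _).2 ⟨s * a, C.mul_mem hs ha, s * b, C.mul_mem hs hb, s * c, C.mul_mem hs hc, ?_⟩
    simp only [smul_add, mul_smul]
  have hB : ∀ U ∈ Lc Γ 1, ∀ W ∈ Lc Γ 1, Bf U W ∈ C := fun U hU W hW => hCB U (hL1 hU) W (hL1 hW)
  have hTV : ∀ W ∈ Lc Γ 1, Tf X Y Z • W ∈ V := by
    intro W hW
    rw [Lib_I2 X Y Z W (htr _ hX) (htr _ hY) (htr _ hZ) (htr _ hW)]
    exact (hVmem _).2 ⟨_, hB _ hW _ hX, _, hB _ hW _ hY, _, hB _ hW _ hZ, rfl⟩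
  have hC2 : (-(2 : R)) ∈ C := by
    apply C.neg_mem
    have : (2 : R) = 1 + 1 := by norm_num
    rw [this]
    exact C.add_mem C.one_mem C.one_mem
  have b12 : Br w1 w2 ∈ V := by
    rw [hw1, hw2, VAD_br X Y Z (htr _ hX) (htr _ hZ)]
    exact hVsmul _ hC2 _ (hTV _ hZ)
  have b23 : Br w2 w3 ∈ V := by
    rw [hw2, hw3, VAD_br Y Z X (htr _ hY) (htr _ hX), ← Lib_Tf_cycle X Y Z]
    exact hVsmul _ hC2 _ (hTV _ hX)
  have b31 : Br w3 w1 ∈ V := by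
    rw [hw3, hw1, VAD_br Z X Y (htr _ hZ) (htr _ hY), Lib_Tf_cycle Z X Y]
    exact hVsmul _ hC2 _ (hTV _ hY)
  have hw1V : w1 ∈ V := (hVmem _).2 ⟨1, C.one_mem, 0, C.zero_mem, 0, C.zero_mem, by simp⟩
  have hw2V : w2 ∈ V := (hVmem _).2 ⟨0, C.zero_mem, 1, C.one_mem, 0, C.zero_mem, by simp⟩
  have hw3V : w3 ∈ V := (hVmem _).2 ⟨0, C.zero_mem, 0, C.zero_mem, 1, C.one_mem, by simp⟩
  refine ⟨V, ⟨hVcl, fun W hW => htr _ (hVle hW), fun W hW => hent _ (hVle hW),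
    (hHAV p R J hp hp2 hS).1 V hVcl, ?_, ?_⟩, hVle, hw1V, hw2V, hw3V, ?_⟩
  · intro W hW W' hW'
    obtain ⟨a, ha, b, hb, c, hc, rfl⟩ := (hVmem W).1 hW
    obtain ⟨a', ha', b', hb', c', hc', rfl⟩ := (hVmem W').1 hW'
    rw [VAD_brV]
    exact V.add_mem (V.add_mem
      (hVsmul _ (C.sub_mem (C.mul_mem ha hb') (C.mul_mem hb ha')) _ b12)
      (hVsmul _ (C.sub_mem (C.mul_mem hb hc') (C.mul_mem hc hb')) _ b23))
      (hVsmul _ (C.sub_mem (C.mul_mem hc ha') (C.mul_mem ha hc')) _ b31)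
  · intro U hU W hW W' hW'
    exact hVsmul _ (hB _ (hVle hU) _ (hVle hW)) _ hW'
  · have hone : ∀ w ∈ Lc Γ 1, CX C w ≤ V → (sN (p : R) V).relIndex (CX C w) ≠ 0 := by
      intro w hw hwV
      have hadm : Adm J (CX C w) := hMOX p R J hp hp2 hS C w hC (htr _ hw) (hent _ hw)
        (hB _ hw _ hw)
      have hKcl := ((hSUB p R J hp hp2 hS).2 _ hadm).2
      have hKle : ES J (CX C w) ≤ Γ := by
        refine le_trans ?_ (hAPX p R J hp hp2 hS Γ hΓ hcl)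
        apply Subgroup.closure_mono
        rintro g ⟨hg, hg2⟩
        refine ⟨hg, ?_⟩
        obtain ⟨c, hc, hcw⟩ := (VAD_mem_CX _ _ _).1 hg2
        rw [← hcw]
        exact hCM c hc 1 _ hw
      have hK3 := hHCL p R J hp hS Γ _ hcl hKcl hKle hH3
      have h1 := hAFI p R J hp hp2 hS C w hC (htr _ hw) (hent _ hw) (hB _ hw _ hw) hK3
      exact fun h => h1 (AddSubgroup.relIndex_eq_zero_of_le_left (AddSubgroup.map_mono hwV) h)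
    have l3 : CX C w3 ≤ V := le_sup_right
    have l2 : CX C w2 ≤ V := (le_sup_right : CX C w2 ≤ CX C w1 ⊔ CX C w2).trans le_sup_left
    have l1 : CX C w1 ≤ V := (le_sup_left : CX C w1 ≤ CX C w1 ⊔ CX C w2).trans le_sup_left
    have := VAD_sup (sN (p : R) V) (CX C w1 ⊔ CX C w2) (CX C w3)
      (VAD_sup _ _ _ (hone _ m1 l1) (hone _ m2 l2)) (hone _ m3 l3)
    exact this

end Pool.Agent.PP2
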